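import Mathlib

/-!
# A smooth Weierstrass cubic over an algebraically closed field has no nonconstant points over
`k(w)`
-/

open Polynomial

universe u

namespace Pool.Agent.Helper83.EW

set_option linter.unusedSectionVars false

section squares

variable {k : Type u} [Field k] [IsAlgClosed k]

lemma isSquare_C (a : k) : IsSquare (C a : k[X]) := by
  obtain ⟨z, hz⟩ := IsAlgClosed.exists_pow_nat_eq a (n := 2) two_pos
  exact ⟨C z, by rw [← C_mul, ← pow_two, hz]⟩

lemma isSquare_of_associated {p q : k[X]} (h : Associated p q) (hp : IsSquare p) :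
    IsSquare q := by
  obtain ⟨u, hu⟩ := h
  obtain ⟨r, -, hr⟩ := Polynomial.isUnit_iff.mp u.isUnit
  rw [← hu, ← hr]
  exact hp.mul (isSquare_C r)

/-- Coprime factors of a square are squares. -/
lemma isSquare_left {p q : k[X]} (h : IsCoprime p q) (hs : IsSquare (p * q)) : IsSquare p := by
  obtain ⟨r, hr⟩ := hs
  rw [← pow_two] at hr
  obtain ⟨d, hd⟩ := exists_associated_pow_of_mul_eq_pow' h hr
  exact isSquare_of_associated hd ⟨d, by rw [pow_two]⟩

lemma isSquare_right {p q : k[X]} (h : IsCoprime p q) (hs : IsSquare (p * q)) : IsSquare q := by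
  rw [mul_comm] at hs
  exact isSquare_left h.symm hs

lemma isSquare_smul {p : k[X]} {c : k} (hc : c ≠ 0) (h : IsSquare (C c * p)) : IsSquare p := by
  have h1 := (isSquare_C (c⁻¹)).mul h
  rwa [← mul_assoc, ← C_mul, inv_mul_cancel₀ hc, C_1, one_mul] at h1

/-- Linear combinations of coprime polynomials are coprime. -/
lemma coprime_comb {p q : k[X]} (h : IsCoprime p q) {a b c d : k} (hd : a * d - b * c ≠ 0) :
    IsCoprime (C a * p + C b * q) (C c * p + C d * q) := by
  obtain ⟨s, t, hst⟩ := h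
  -- `d * A - b * B = D p`, `-c A + a B = D q`
  refine ⟨C (a * d - b * c)⁻¹ * (s * C d - t * C c), C (a * d - b * c)⁻¹ * (t * C a - s * C b), ?_⟩
  have h1 : C (a * d - b * c)⁻¹ * C (a * d - b * c) = (1 : k[X]) := by
    rw [← C_mul, inv_mul_cancel₀ hd, C_1]
  have h2 : C (a * d - b * c) = C a * C d - C b * C c := by
    rw [C_sub, C_mul, C_mul]
  calc _ = C (a * d - b * c)⁻¹ * (C a * C d - C b * C c) * (s * p + t * q) := by ring
    _ = 1 := by rw [← h2, h1, hst, one_mul]

variable [CharZero k]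

/-- The descent. -/
theorem four_squares_aux (n : ℕ) : ∀ (u v : k[X]) (μ μ' : k), IsCoprime u v →
    μ ≠ 0 → μ' ≠ 0 → μ ^ 2 ≠ μ' ^ 2 → IsSquare (u - C μ * v) → IsSquare (u + C μ * v) →
    IsSquare (u - C μ' * v) → IsSquare (u + C μ' * v) → max u.natDegree v.natDegree ≤ n →
    u.natDegree = 0 ∧ v.natDegree = 0 := by
  induction n using Nat.strong_induction_on with
  | _ n IH =>
    intro u v μ μ' hc hμ hμ' hne h1 h2 h3 h4 hn
    obtain ⟨r, hr⟩ := h1
    obtain ⟨s, hs⟩ := h2
    have h2k : (2 : k) ≠ 0 := two_ne_zero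
    have hC2 : (C (2 : k) : k[X]) = 2 := map_ofNat C 2
    -- degrees
    have hu : C 2 * u = r * r + s * s := by rw [← hr, ← hs, hC2]; ring
    have hv : C (2 * μ) * v = s * s - r * r := by rw [← hr, ← hs, C_mul, hC2]; ring
    have hdr : 2 * r.natDegree ≤ max u.natDegree v.natDegree := by
      have : (r * r).natDegree = 2 * r.natDegree := by rw [← pow_two, natDegree_pow]
      rw [← this, ← hr]
      refine (natDegree_sub_le _ _).trans (max_le_max le_rfl ?_)
      exact natDegree_C_mul_le _ _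
    have hds : 2 * s.natDegree ≤ max u.natDegree v.natDegree := by
      have : (s * s).natDegree = 2 * s.natDegree := by rw [← pow_two, natDegree_pow]
      rw [← this, ← hs]
      refine (natDegree_add_le _ _).trans (max_le_max le_rfl ?_)
      exact natDegree_C_mul_le _ _
    have hfin : r.natDegree = 0 → s.natDegree = 0 → u.natDegree = 0 ∧ v.natDegree = 0 := by
      intro hr0 hs0
      obtain ⟨r0, rfl⟩ : ∃ r0, r = C r0 := ⟨_, eq_C_of_natDegree_eq_zero hr0⟩
      obtain ⟨s0, rfl⟩ : ∃ s0, s = C s0 := ⟨_, eq_C_of_natDegree_eq_zero hs0⟩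
      constructor
      · have h5 : (C 2 * u).natDegree = 0 := by
          rw [hu, ← C_mul, ← C_mul, ← C_add, natDegree_C]
        rwa [natDegree_C_mul h2k] at h5
      · have h5 : (C (2 * μ) * v).natDegree = 0 := by
          rw [hv, ← C_mul, ← C_mul, ← C_sub, natDegree_C]
        rwa [natDegree_C_mul (mul_ne_zero h2k hμ)] at h5
    by_cases hn0 : max r.natDegree s.natDegree = 0
    · have := (Nat.max_eq_zero_iff).mp hn0
      exact hfin this.1 this.2
    have hlt : max r.natDegree s.natDegree < n := by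
      have : 2 * max r.natDegree s.natDegree ≤ n := by
        rcases le_total r.natDegree s.natDegree with h | h
        · rw [max_eq_right h]; exact hds.trans hn
        · rw [max_eq_left h]; exact hdr.trans hn
      omega
    -- coprimality
    have hcc : IsCoprime (u - C μ * v) (u + C μ * v) := by
      have := coprime_comb hc (a := 1) (b := -μ) (c := 1) (d := μ) (by
        rw [one_mul, mul_one, sub_neg_eq_add, ← two_mul]; exact mul_ne_zero h2k hμ)
      simpa [sub_eq_add_neg] using this
    have hrs : IsCoprime r s := by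
      rw [hr, hs] at hcc
      exact (IsCoprime.of_mul_left_left hcc).of_mul_right_left
    -- the new parameter
    set κ : k := μ' / μ with hκ
    have hκ0 : κ ≠ 0 := div_ne_zero hμ' hμ
    have hκμ : κ * μ = μ' := div_mul_cancel₀ _ hμ
    have hκ1 : κ + 1 ≠ 0 := by
      intro h
      apply hne
      have : μ' = -μ := by rw [← hκμ]; linear_combination μ * h
      rw [this]; ring
    have hκ2 : κ - 1 ≠ 0 := by
      intro h
      apply hne
      have : μ' = μ := by rw [← hκμ]; linear_combination μ * h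
      rw [this]
    obtain ⟨ν, hν⟩ := IsAlgClosed.exists_pow_nat_eq ((κ - 1) / (κ + 1)) (n := 2) two_pos
    have hν0 : ν ≠ 0 := by
      rintro rfl
      rw [zero_pow two_ne_zero] at hν
      exact (div_ne_zero hκ2 hκ1) hν.symm
    have hν' : (ν⁻¹) ^ 2 = (κ + 1) / (κ - 1) := by rw [inv_pow, hν, inv_div]
    have hνν : ν ^ 2 ≠ (ν⁻¹) ^ 2 := by
      rw [hν, hν', Ne, div_eq_div_iff hκ1 hκ2]
      intro h
      have : 4 * κ = 0 := by linear_combination -h
      exact (mul_ne_zero (by norm_num : (4 : k) ≠ 0) hκ0) this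
    -- factorizations
    have e1 : C (2 * μ) * (u - C μ' * v) = C (μ * (1 + κ)) * ((r - C ν * s) * (r + C ν * s)) := by
      have h5 : (r - C ν * s) * (r + C ν * s) = r * r - C (ν ^ 2) * (s * s) := by
        rw [C_pow]; ring
      have h6 : C (μ * (1 + κ)) * (C (ν ^ 2) * (s * s)) = C (μ * (κ - 1)) * (s * s) := by
        rw [← mul_assoc, ← C_mul, hν]
        congr 2
        field_simp
        ring
      have h7 : C (2 * μ) * (u - C μ' * v) = C μ * (C 2 * u) - C μ' * (C (2 * μ) * v) := by
        simp only [C_mul]; ring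
      have h8 : C (μ * (1 + κ)) * (r * r - C (ν ^ 2) * (s * s)) =
          C (μ * (1 + κ)) * (r * r) - C (μ * (κ - 1)) * (s * s) := by rw [mul_sub, h6]
      rw [h5, h8, h7, hu, hv, ← hκμ]
      simp only [C_mul, C_add, C_sub, C_1]
      ring
    have e2 : C (2 * μ) * (u + C μ' * v) =
        C (μ * (1 - κ)) * ((r - C ν⁻¹ * s) * (r + C ν⁻¹ * s)) := by
      have h5 : (r - C ν⁻¹ * s) * (r + C ν⁻¹ * s) = r * r - C (ν⁻¹ ^ 2) * (s * s) := by
        rw [C_pow]; ring
      have h6 : C (μ * (1 - κ)) * (C (ν⁻¹ ^ 2) * (s * s)) = - C (μ * (κ + 1)) * (s * s) := by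
        rw [← mul_assoc, ← C_mul, hν', ← C_neg]
        congr 2
        field_simp
        ring
      have h7 : C (2 * μ) * (u + C μ' * v) = C μ * (C 2 * u) + C μ' * (C (2 * μ) * v) := by
        simp only [C_mul]; ring
      have h8 : C (μ * (1 - κ)) * (r * r - C (ν⁻¹ ^ 2) * (s * s)) =
          C (μ * (1 - κ)) * (r * r) - -C (μ * (κ + 1)) * (s * s) := by rw [mul_sub, h6]
      rw [h5, h8, h7, hu, hv, ← hκμ]
      simp only [C_mul, C_add, C_sub, C_1]
      ring
    have f1 : IsSquare ((r - C ν * s) * (r + C ν * s)) := by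
      apply isSquare_smul (c := μ * (1 + κ)) (mul_ne_zero hμ (by rwa [add_comm]))
      rw [← e1]
      exact (isSquare_C _).mul h3
    have f2 : IsSquare ((r - C ν⁻¹ * s) * (r + C ν⁻¹ * s)) := by
      apply isSquare_smul (c := μ * (1 - κ)) (mul_ne_zero hμ (by
        intro h; apply hκ2; linear_combination -h))
      rw [← e2]
      exact (isSquare_C _).mul h4
    have g : ∀ ξ : k, ξ ≠ 0 → IsCoprime (r - C ξ * s) (r + C ξ * s) := by
      intro ξ hξ
      have := coprime_comb hrs (a := 1) (b := -ξ) (c := 1) (d := ξ) (by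
        rw [one_mul, mul_one, sub_neg_eq_add, ← two_mul]; exact mul_ne_zero h2k hξ)
      simpa [sub_eq_add_neg] using this
    have := IH _ hlt r s ν ν⁻¹ hrs hν0 (inv_ne_zero hν0) hνν
      (isSquare_left (g ν hν0) f1) (isSquare_right (g ν hν0) f1)
      (isSquare_left (g _ (inv_ne_zero hν0)) f2) (isSquare_right (g _ (inv_ne_zero hν0)) f2)
      le_rfl
    exact hfin this.1 this.2

/-- If `q` and `p - e i q` are squares for three different `e i`, then `p` and `q` are constant. -/
theorem four_squares {p q : k[X]} (hc : IsCoprime p q) {e : Fin 3 → k}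
    (he : Function.Injective e) (hq : IsSquare q) (hp : ∀ i, IsSquare (p - C (e i) * q)) :
    p.natDegree = 0 ∧ q.natDegree = 0 := by
  obtain ⟨v, hv⟩ := hq
  obtain ⟨u, hu⟩ := hp 0
  have h01 : e 1 - e 0 ≠ 0 := sub_ne_zero.mpr (fun h => absurd (he h) (by decide))
  have h02 : e 2 - e 0 ≠ 0 := sub_ne_zero.mpr (fun h => absurd (he h) (by decide))
  have h12 : e 1 ≠ e 2 := fun h => absurd (he h) (by decide)
  obtain ⟨μ, hμ⟩ := IsAlgClosed.exists_pow_nat_eq (e 1 - e 0) (n := 2) two_pos
  obtain ⟨μ', hμ'⟩ := IsAlgClosed.exists_pow_nat_eq (e 2 - e 0) (n := 2) two_pos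
  have hμ0 : μ ≠ 0 := by
    rintro rfl
    rw [zero_pow two_ne_zero] at hμ
    exact h01 hμ.symm
  have hμ0' : μ' ≠ 0 := by
    rintro rfl
    rw [zero_pow two_ne_zero] at hμ'
    exact h02 hμ'.symm
  have hne : μ ^ 2 ≠ μ' ^ 2 := by
    rw [hμ, hμ']
    intro h
    exact h12 (sub_left_injective h)
  have huv : IsCoprime u v := by
    have h1 : IsCoprime (p - C (e 0) * q) q := by
      have := coprime_comb hc (a := 1) (b := -e 0) (c := 0) (d := 1) (by simp)
      simpa [sub_eq_add_neg] using this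
    rw [hu, hv] at h1
    exact (IsCoprime.of_mul_left_left h1).of_mul_right_left
  have e1 : (u - C μ * v) * (u + C μ * v) = p - C (e 1) * q := by
    have h1 : (u - C μ * v) * (u + C μ * v) = u * u - C (μ ^ 2) * (v * v) := by
      rw [C_pow]; ring
    rw [h1, ← hu, ← hv, hμ, C_sub]; ring
  have e2 : (u - C μ' * v) * (u + C μ' * v) = p - C (e 2) * q := by
    have h1 : (u - C μ' * v) * (u + C μ' * v) = u * u - C (μ' ^ 2) * (v * v) := by
      rw [C_pow]; ring
    rw [h1, ← hu, ← hv, hμ', C_sub]; ring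
  have g : ∀ ξ : k, ξ ≠ 0 → IsCoprime (u - C ξ * v) (u + C ξ * v) := by
    intro ξ hξ
    have := coprime_comb huv (a := 1) (b := -ξ) (c := 1) (d := ξ) (by
      rw [one_mul, mul_one, sub_neg_eq_add, ← two_mul]; exact mul_ne_zero two_ne_zero hξ)
    simpa [sub_eq_add_neg] using this
  have f1 : IsSquare ((u - C μ * v) * (u + C μ * v)) := by rw [e1]; exact hp 1
  have f2 : IsSquare ((u - C μ' * v) * (u + C μ' * v)) := by rw [e2]; exact hp 2
  have := four_squares_aux _ u v μ μ' huv hμ0 hμ0' hne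
    (isSquare_left (g μ hμ0) f1) (isSquare_right (g μ hμ0) f1)
    (isSquare_left (g _ hμ0') f2) (isSquare_right (g _ hμ0') f2) le_rfl
  obtain ⟨u0, hu0⟩ : ∃ u0, u = C u0 := ⟨_, eq_C_of_natDegree_eq_zero this.1⟩
  obtain ⟨v0, hv0⟩ : ∃ v0, v = C v0 := ⟨_, eq_C_of_natDegree_eq_zero this.2⟩
  have hq' : q = C (v0 * v0) := by rw [hv, hv0, C_mul]
  have hp' : p = C (u0 * u0 + e 0 * (v0 * v0)) := by
    have : p = u * u + C (e 0) * q := by rw [← hu]; ring
    rw [this, hu0, hq']
    simp only [C_add, C_mul]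
  rw [hp', hq', natDegree_C, natDegree_C]
  exact ⟨rfl, rfl⟩

end squares

/-- The roots of the Weierstrass cubic. -/
theorem exists_roots {k : Type u} [Field k] [IsAlgClosed k] [CharZero k] {a b : k}
    (hE : 4 * a ^ 3 + 27 * b ^ 2 ≠ 0) : ∃ e : Fin 3 → k, Function.Injective e ∧
      e 0 + e 1 + e 2 = 0 ∧ e 0 * e 1 + e 0 * e 2 + e 1 * e 2 = a ∧ e 0 * e 1 * e 2 = -b := by
  set P : k[X] := X ^ 3 + (C a * X + C b) with hP
  have hlt : (C a * X + C b : k[X]).degree < (3 : ℕ) := by
    refine (degree_linear_le).trans_lt ?_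
    exact_mod_cast (by norm_num : 1 < 3)
  have hdeg : P.natDegree = 3 := by
    rw [hP, natDegree_add_eq_left_of_degree_lt, natDegree_X_pow]
    rwa [degree_X_pow]
  have hmon : P.Monic := monic_X_pow_add hlt
  have hsp : P.Splits := IsAlgClosed.splits P
  have hcard : P.roots.card = 3 := by
    rw [← hdeg]
    exact hsp.natDegree_eq_card_roots.symm
  obtain ⟨x, y, z, hxyz⟩ := Multiset.card_eq_three.mp hcard
  have hprod : P = (X - C x) * (X - C y) * (X - C z) := by
    have h1 := hsp.eq_prod_roots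
    rw [hmon.leadingCoeff, C_1, one_mul, hxyz] at h1
    rw [h1]
    simp [mul_assoc]
  have hev : ∀ t : k, t ^ 3 + (a * t + b) = (t - x) * (t - y) * (t - z) := by
    intro t
    have h1 := congrArg (eval t) (hP.symm.trans hprod)
    simpa using h1
  have t0 := hev 0
  have t1 := hev 1
  have t2 := hev (-1)
  have hs : x + y + z = 0 := by
    have h1 : (2 : k) * (x + y + z) = 0 := by linear_combination t1 + t2 - 2 * t0
    exact (mul_eq_zero.mp h1).resolve_left two_ne_zero
  have hp : x * y + x * z + y * z = a := by linear_combination t0 - t1 + hs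
  have hr : x * y * z = -b := by linear_combination t0
  have hdisc : 4 * a ^ 3 + 27 * b ^ 2 = -((x - y) * (x - z) * (y - z)) ^ 2 := by
    have hz : z = -x - y := by linear_combination hs
    rw [← hp, show b = -(x * y * z) by rw [hr, neg_neg], hz]
    ring
  have hne : (x - y) * (x - z) * (y - z) ≠ 0 := by
    intro h
    apply hE
    rw [hdisc, h]
    ring
  have h1 : x ≠ y := by rintro rfl; apply hne; ring
  have h2 : x ≠ z := by rintro rfl; apply hne; ring
  have h3 : y ≠ z := by rintro rfl; apply hne; ring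
  refine ⟨![x, y, z], ?_, ?_, ?_, ?_⟩
  · intro i j hij
    fin_cases i <;> fin_cases j <;> simp_all
  · simpa using hs
  · simpa using hp
  · simpa using hr

/-- Block NP. A smooth Weierstrass cubic over `k` has no nonconstant points over `k(w)`. -/
theorem no_points {k : Type u} [Field k] [IsAlgClosed k] [CharZero k] {a b : k}
    (hE : 4 * a ^ 3 + 27 * b ^ 2 ≠ 0) (x y : RatFunc k)
    (h : y ^ 2 = x ^ 3 + RatFunc.C a * x + RatFunc.C b) :
    ∃ x0 y0 : k, x = RatFunc.C x0 ∧ y = RatFunc.C y0 := by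
  obtain ⟨e, he, hs, hp, hr⟩ := exists_roots hE
  -- write `x = p / q`
  set p := x.num with hpn
  set q := x.denom with hqn
  have hq0 : q ≠ 0 := x.denom_ne_zero
  have hcop : IsCoprime p q := x.isCoprime_num_denom
  have hx : x = algebraMap k[X] (RatFunc k) p / algebraMap k[X] (RatFunc k) q :=
    (x.num_div_denom).symm
  have hq0' : algebraMap k[X] (RatFunc k) q ≠ 0 := by
    rw [Ne, IsFractionRing.to_map_eq_zero_iff]
    exact hq0
  have hCa : ∀ c : k, RatFunc.C c = algebraMap k[X] (RatFunc k) (C c) := fun c => rfl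
  -- the square
  have hsq : (y * algebraMap k[X] (RatFunc k) q ^ 2) ^ 2 = algebraMap k[X] (RatFunc k)
      (q * ((p - C (e 0) * q) * ((p - C (e 1) * q) * (p - C (e 2) * q)))) := by
    have h1 : x ^ 3 + RatFunc.C a * x + RatFunc.C b = (x - algebraMap k[X] _ (C (e 0))) *
        ((x - algebraMap k[X] _ (C (e 1))) * (x - algebraMap k[X] _ (C (e 2)))) := by
      rw [← hp, show b = -(e 0 * e 1 * e 2) by rw [hr, neg_neg], hCa, hCa]
      simp only [map_add, map_mul, map_neg]
      have hs' : algebraMap k[X] (RatFunc k) (C (e 0)) + algebraMap k[X] (RatFunc k) (C (e 1)) +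
          algebraMap k[X] (RatFunc k) (C (e 2)) = 0 := by
        rw [← map_add, ← map_add, ← C_add, ← C_add, hs, C_0, map_zero]
      linear_combination x ^ 2 * hs'
    rw [mul_pow, h, h1, hx]
    simp only [map_mul, map_sub]
    field_simp
  obtain ⟨r, hr'⟩ : ∃ r : k[X], y * algebraMap k[X] (RatFunc k) q ^ 2 =
      algebraMap k[X] (RatFunc k) r := by
    have h1 : IsIntegral k[X] (y * algebraMap k[X] (RatFunc k) q ^ 2) := by
      refine IsIntegral.of_pow (n := 2) two_pos ?_
      rw [hsq]
      exact isIntegral_algebraMap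
    obtain ⟨r, hr⟩ := IsIntegrallyClosed.isIntegral_iff.mp h1
    exact ⟨r, hr.symm⟩
  have hprod : q * ((p - C (e 0) * q) * ((p - C (e 1) * q) * (p - C (e 2) * q))) = r * r := by
    apply IsFractionRing.injective k[X] (RatFunc k)
    rw [← hsq, hr', map_mul, pow_two]
  have c0 : ∀ i, IsCoprime q (p - C (e i) * q) := by
    intro i
    have := coprime_comb hcop (a := 0) (b := 1) (c := 1) (d := -e i) (by simp)
    simpa [sub_eq_add_neg] using this
  have c1 : ∀ i j, i ≠ j → IsCoprime (p - C (e i) * q) (p - C (e j) * q) := by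
    intro i j hij
    have := coprime_comb hcop (a := 1) (b := -e i) (c := 1) (d := -e j) (by
      intro h1
      apply hij
      apply he
      linear_combination h1)
    simpa [sub_eq_add_neg] using this
  have hsqr : IsSquare (q * ((p - C (e 0) * q) * ((p - C (e 1) * q) * (p - C (e 2) * q)))) :=
    ⟨r, hprod⟩
  have s0 : IsSquare q := isSquare_left
    ((c0 0).mul_right ((c0 1).mul_right (c0 2))) hsqr
  have s1 := isSquare_right ((c0 0).mul_right ((c0 1).mul_right (c0 2))) hsqr
  have cc : IsCoprime (p - C (e 0) * q) ((p - C (e 1) * q) * (p - C (e 2) * q)) :=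
    (c1 0 1 (by decide)).mul_right (c1 0 2 (by decide))
  have s2 := isSquare_left cc s1
  have s3 := isSquare_right cc s1
  have s4 := isSquare_left (c1 1 2 (by decide)) s3
  have s5 := isSquare_right (c1 1 2 (by decide)) s3
  have hfin := four_squares hcop he s0 (by
    intro i
    fin_cases i
    · exact s2
    · exact s4
    · exact s5)
  obtain ⟨p0, hp0⟩ : ∃ p0, p = C p0 := ⟨_, eq_C_of_natDegree_eq_zero hfin.1⟩
  obtain ⟨q0, hq0''⟩ : ∃ q0, q = C q0 := ⟨_, eq_C_of_natDegree_eq_zero hfin.2⟩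
  have hr0 : r.natDegree = 0 := by
    have h1 : (r * r).natDegree = 0 := by
      rw [← hprod, hp0, hq0'']
      simp only [← C_mul, ← C_sub]
      exact natDegree_C _
    rw [← pow_two, natDegree_pow] at h1
    omega
  obtain ⟨r0, hr0'⟩ : ∃ r0, r = C r0 := ⟨_, eq_C_of_natDegree_eq_zero hr0⟩
  have hq00 : q0 ≠ 0 := by
    rintro rfl
    apply hq0
    rw [hq0'', C_0]
  refine ⟨p0 / q0, r0 / q0 ^ 2, ?_, ?_⟩
  · rw [hx, hp0, hq0'', ← hCa, ← hCa, ← map_div₀]
  · have h1 : y = algebraMap k[X] (RatFunc k) r / algebraMap k[X] (RatFunc k) q ^ 2 := by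
      rw [← hr', mul_div_assoc, div_self (pow_ne_zero _ hq0'), mul_one]
    rw [h1, hr0', hq0'', ← hCa, ← hCa, ← map_pow, ← map_div₀]

end Pool.Agent.Helper83.EW
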