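import Mathlib
import Pool.Agent.Helper51.EW.Data
import Pool.Agent.Helper71.SE.Zero

/-!
# Weierstrass equations with constant `j`
-/

set_option linter.unusedSectionVars false

namespace Pool.Agent.Helper83.EW

open VC VF Function Pool.Agent.Helper51.EW

universe u

section binary

variable {k : Type u} [Field k]

/-- A basis of `k ^ 2` of determinant one. -/
structure Bas (k : Type u) [Field k] where
  e0 : Fin 2 → k
  e1 : Fin 2 → k
  det : e0 0 * e1 1 - e0 1 * e1 0 = 1

variable (E : Bas k)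

/-- The first dual linear form. -/
noncomputable def Bas.s : MvPolynomial (Fin 2) k :=
  MvPolynomial.X 0 * MvPolynomial.C (E.e1 1) - MvPolynomial.X 1 * MvPolynomial.C (E.e1 0)

/-- The second dual linear form. -/
noncomputable def Bas.t : MvPolynomial (Fin 2) k :=
  MvPolynomial.X 1 * MvPolynomial.C (E.e0 0) - MvPolynomial.X 0 * MvPolynomial.C (E.e0 1)

lemma s_eval (x : Fin 2 → k) : MvPolynomial.eval x E.s = x 0 * E.e1 1 - x 1 * E.e1 0 := by
  simp [Bas.s]

lemma t_eval (x : Fin 2 → k) : MvPolynomial.eval x E.t = x 1 * E.e0 0 - x 0 * E.e0 1 := by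
  simp [Bas.t]

lemma decomp (x : Fin 2 → k) (i : Fin 2) : x i =
    MvPolynomial.eval x E.s * E.e0 i + MvPolynomial.eval x E.t * E.e1 i := by
  rw [s_eval, t_eval]
  fin_cases i
  · change x 0 = _ * E.e0 0 + _ * E.e1 0
    linear_combination -x 0 * E.det
  · change x 1 = _ * E.e0 1 + _ * E.e1 1
    linear_combination -x 1 * E.det

/-- Dehomogenisation. -/
noncomputable def deh (F : MvPolynomial (Fin 2) k) : Polynomial k :=
  MvPolynomial.aeval (fun i => Polynomial.C (E.e0 i) + Polynomial.X * Polynomial.C (E.e1 i)) F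

lemma aeval_deh (F : MvPolynomial (Fin 2) k) {K : Type u} [Field K] [Algebra k K] (T : K) :
    Polynomial.aeval T (deh E F) = MvPolynomial.aeval
      (fun i => algebraMap k K (E.e0 i) + T * algebraMap k K (E.e1 i)) F := by
  unfold deh
  rw [MvPolynomial.comp_aeval_apply]
  congr 2
  funext i
  rw [map_add, map_mul, Polynomial.aeval_C, Polynomial.aeval_C, Polynomial.aeval_X]

lemma eval_deh (F : MvPolynomial (Fin 2) k) (T : k) :
    (deh E F).eval T = MvPolynomial.eval (fun i => E.e0 i + T * E.e1 i) F := by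
  have h := aeval_deh E F T
  rw [Polynomial.coe_aeval_eq_eval] at h
  rw [h]
  rfl

lemma eval_of_deh {n : ℕ} {F : MvPolynomial (Fin 2) k} (hF : F.IsHomogeneous n) (x : Fin 2 → k)
    (hs : MvPolynomial.eval x E.s ≠ 0) : MvPolynomial.eval x F =
      MvPolynomial.eval x E.s ^ n *
        (deh E F).eval (MvPolynomial.eval x E.t / MvPolynomial.eval x E.s) := by
  rw [eval_deh]
  have h := aeval_smul hF (MvPolynomial.eval x E.s)
    (fun i => E.e0 i + MvPolynomial.eval x E.t / MvPolynomial.eval x E.s * E.e1 i)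
  have e : (fun i => MvPolynomial.eval x E.s *
      (E.e0 i + MvPolynomial.eval x E.t / MvPolynomial.eval x E.s * E.e1 i)) = x := by
    funext i
    conv_rhs => rw [decomp E x i]
    field_simp
  rw [e] at h
  exact h

lemma natDegree_deh_le {n : ℕ} {F : MvPolynomial (Fin 2) k} (hF : F.IsHomogeneous n) :
    (deh E F).natDegree ≤ n := by
  unfold deh
  rw [MvPolynomial.aeval_def, MvPolynomial.eval₂_eq']
  apply Polynomial.natDegree_sum_le_of_forall_le
  intro d hd
  have h1 : ∑ i, d i = n := by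
    have := hF (MvPolynomial.mem_support_iff.mp hd)
    rw [Finsupp.weight_apply, Finsupp.sum_fintype _ _ (fun i => by simp)] at this
    simpa using this
  refine (Polynomial.natDegree_C_mul_le _ _).trans ?_
  refine (Polynomial.natDegree_prod_le _ _).trans ?_
  rw [← h1]
  apply Finset.sum_le_sum
  intro i _
  refine (Polynomial.natDegree_pow_le).trans ?_
  conv_rhs => rw [← mul_one (d i)]
  apply Nat.mul_le_mul_left
  refine (Polynomial.natDegree_add_le _ _).trans ?_
  rw [Polynomial.natDegree_C]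
  refine max_le (Nat.zero_le _) ?_
  rw [mul_comm]
  exact (Polynomial.natDegree_C_mul_le _ _).trans Polynomial.natDegree_X_le

/-- Homogenisation. -/
noncomputable def hmg (h : Polynomial k) (N : ℕ) : MvPolynomial (Fin 2) k :=
  ∑ i ∈ Finset.range (N + 1), MvPolynomial.C (h.coeff i) * E.t ^ i * E.s ^ (N - i)

lemma eval_hmg {h : Polynomial k} {N : ℕ} (hN : h.natDegree ≤ N) (x : Fin 2 → k)
    (hs : MvPolynomial.eval x E.s ≠ 0) : MvPolynomial.eval x (hmg E h N) =
      MvPolynomial.eval x E.s ^ N *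
        h.eval (MvPolynomial.eval x E.t / MvPolynomial.eval x E.s) := by
  unfold hmg
  rw [Polynomial.eval_eq_sum_range' (Nat.lt_succ_of_le hN), Finset.mul_sum, map_sum]
  apply Finset.sum_congr rfl
  intro i hi
  have hi' : i ≤ N := Nat.lt_succ_iff.mp (Finset.mem_range.mp hi)
  rw [map_mul, map_mul, map_pow, map_pow, MvPolynomial.eval_C, div_pow]
  have e : MvPolynomial.eval x E.s ^ N =
      MvPolynomial.eval x E.s ^ (N - i) * MvPolynomial.eval x E.s ^ i := by
    rw [← pow_add, Nat.sub_add_cancel hi']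
  rw [e]
  field_simp

lemma s_ne_zero : E.s ≠ 0 := by
  intro h
  have h1 := s_eval E E.e0
  rw [h, map_zero, E.det] at h1
  exact zero_ne_one h1

lemma eq_of_eval [Infinite k] {P Q : MvPolynomial (Fin 2) k}
    (h : ∀ x, MvPolynomial.eval x E.s ≠ 0 → MvPolynomial.eval x P = MvPolynomial.eval x Q) :
    P = Q := by
  apply mul_left_cancel₀ (s_ne_zero E)
  apply MvPolynomial.funext
  intro x
  rw [map_mul, map_mul]
  by_cases hs : MvPolynomial.eval x E.s = 0
  · rw [hs, zero_mul, zero_mul]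
  · rw [h x hs]

/-- The linear form with the zero `e0 + r e1`. -/
noncomputable def lf (r : k) : MvPolynomial (Fin 2) k := E.t - MvPolynomial.C r * E.s

lemma s_hom : E.s.IsHomogeneous 1 := by
  unfold Bas.s
  have h : ∀ (i : Fin 2) (c : k), (MvPolynomial.X i * MvPolynomial.C c :
      MvPolynomial (Fin 2) k).IsHomogeneous 1 := fun i c =>
    (MvPolynomial.isHomogeneous_X k i).mul (MvPolynomial.isHomogeneous_C _ c)
  exact (h 0 _).sub (h 1 _)

lemma t_hom : E.t.IsHomogeneous 1 := by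
  unfold Bas.t
  have h : ∀ (i : Fin 2) (c : k), (MvPolynomial.X i * MvPolynomial.C c :
      MvPolynomial (Fin 2) k).IsHomogeneous 1 := fun i c =>
    (MvPolynomial.isHomogeneous_X k i).mul (MvPolynomial.isHomogeneous_C _ c)
  exact (h 1 _).sub (h 0 _)

lemma lf_hom (r : k) : (lf E r).IsHomogeneous 1 := by
  unfold lf
  have h := (MvPolynomial.isHomogeneous_C (Fin 2) r).mul (s_hom E)
  rw [zero_add] at h
  exact (t_hom E).sub h

lemma lf_dvd [Infinite k] {n : ℕ} {F : MvPolynomial (Fin 2) k} (hF : F.IsHomogeneous n)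
    (hF0 : deh E F ≠ 0) {r : k} {j : ℕ} (h : (Polynomial.X - Polynomial.C r) ^ j ∣ deh E F) :
    lf E r ^ j ∣ F := by
  obtain ⟨q, hq⟩ := h
  have hq0 : q ≠ 0 := by
    rintro rfl
    rw [mul_zero] at hq
    exact hF0 hq
  have hdeg : j + q.natDegree ≤ n := by
    have h1 := natDegree_deh_le E hF
    rw [hq, Polynomial.natDegree_mul (pow_ne_zero _ (Polynomial.X_sub_C_ne_zero r)) hq0,
      Polynomial.natDegree_pow, Polynomial.natDegree_X_sub_C, mul_one] at h1
    exact h1
  refine ⟨hmg E q (n - j), eq_of_eval E ?_⟩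
  intro x hs
  rw [eval_of_deh E hF x hs, hq, map_mul, map_pow, eval_hmg E (by omega) x hs]
  have e : MvPolynomial.eval x E.s ^ n =
      MvPolynomial.eval x E.s ^ j * MvPolynomial.eval x E.s ^ (n - j) := by
    rw [← pow_add]
    congr 1
    omega
  rw [Polynomial.eval_mul, Polynomial.eval_pow, Polynomial.eval_sub, Polynomial.eval_X,
    Polynomial.eval_C, e]
  have e2 : MvPolynomial.eval x (lf E r) = MvPolynomial.eval x E.s *
      (MvPolynomial.eval x E.t / MvPolynomial.eval x E.s - r) := by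
    unfold lf
    rw [map_sub, map_mul, MvPolynomial.eval_C]
    field_simp
  rw [e2, mul_pow]
  ring

lemma s_dvd [Infinite k] {n : ℕ} {F : MvPolynomial (Fin 2) k} (hF : F.IsHomogeneous n)
    {j : ℕ} (hj : j ≤ n) (h : (deh E F).natDegree ≤ n - j) : E.s ^ j ∣ F := by
  refine ⟨hmg E (deh E F) (n - j), eq_of_eval E ?_⟩
  intro x hs
  rw [eval_of_deh E hF x hs, map_mul, map_pow, eval_hmg E h x hs, ← mul_assoc, ← pow_add]
  congr 2
  omega

lemma deh_ne_zero [Infinite k] {n : ℕ} {F : MvPolynomial (Fin 2) k} (hF : F.IsHomogeneous n)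
    (h0 : F ≠ 0) : deh E F ≠ 0 := by
  intro h
  apply h0
  apply eq_of_eval E
  intro x hs
  rw [eval_of_deh E hF x hs, h, Polynomial.eval_zero, mul_zero, map_zero]

lemma natDegree_deh_lt [Infinite k] {n : ℕ} {F : MvPolynomial (Fin 2) k} (hF : F.IsHomogeneous n)
    (hn : 0 < n) (h1 : MvPolynomial.eval E.e1 F = 0) : (deh E F).natDegree < n := by
  have h2 : F = hmg E (deh E F) n := by
    apply eq_of_eval E
    intro x hs
    rw [eval_of_deh E hF x hs, eval_hmg E (natDegree_deh_le E hF) x hs]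
  have hs1 : MvPolynomial.eval E.e1 E.s = 0 := by rw [s_eval]; ring
  have ht1 : MvPolynomial.eval E.e1 E.t = 1 := by rw [t_eval]; linear_combination E.det
  have h3 : (deh E F).coeff n = 0 := by
    rw [h2] at h1
    unfold hmg at h1
    rw [map_sum, Finset.sum_eq_single n] at h1
    · rw [map_mul, map_mul, map_pow, map_pow, MvPolynomial.eval_C, ht1, Nat.sub_self] at h1
      simpa using h1
    · intro i hi hin
      have : 0 < n - i := by
        have := Finset.mem_range.mp hi
        omega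
      rw [map_mul, map_pow, hs1, zero_pow this.ne', mul_zero]
    · intro h
      exact absurd (Finset.mem_range.mpr (Nat.lt_succ_self n)) h
  rcases (natDegree_deh_le E hF).lt_or_eq with h | h
  · exact h
  · exfalso
    rw [← h, Polynomial.coeff_natDegree, Polynomial.leadingCoeff_eq_zero] at h3
    rw [h3, Polynomial.natDegree_zero] at h
    omega

/-- Polynomials without multiple roots of order `m` (also at infinity) have many roots. -/
lemma many_roots [IsAlgClosed k] {f : Polynomial k} (hf0 : f ≠ 0) {m N : ℕ} (hm : 0 < m)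
    (hN : 0 < N) (h1 : ∀ r, ¬ (Polynomial.X - Polynomial.C r) ^ m ∣ f)
    (h2 : m * (N - 1) < f.natDegree) (q : Polynomial k) (hq : q ≠ 0) (hd : q.degree < N) :
    ∃ r, f.IsRoot r ∧ q.eval r ≠ 0 := by
  classical
  by_contra hcon
  push Not at hcon
  have hsub : f.roots.toFinset ⊆ q.roots.toFinset := by
    intro r hr
    rw [Multiset.mem_toFinset, Polynomial.mem_roots hf0] at hr
    rw [Multiset.mem_toFinset, Polynomial.mem_roots hq]
    exact hcon r hr
  have hcard : f.roots.toFinset.card ≤ N - 1 := by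
    have h3 : q.roots.toFinset.card ≤ q.natDegree :=
      (Multiset.toFinset_card_le _).trans (Polynomial.card_roots' q)
    have h4 : q.natDegree < N := (Polynomial.natDegree_lt_iff_degree_lt hq).mpr hd
    have := Finset.card_le_card hsub
    omega
  have h3 : f.natDegree = f.roots.card := (IsAlgClosed.splits f).natDegree_eq_card_roots
  have h4 : f.roots.card = ∑ r ∈ f.roots.toFinset, f.roots.count r :=
    (Multiset.toFinset_sum_count_eq _).symm
  have h5 : ∑ r ∈ f.roots.toFinset, f.roots.count r ≤ f.roots.toFinset.card * (m - 1) := by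
    rw [← smul_eq_mul]
    apply Finset.sum_le_card_nsmul
    intro r _
    rw [Polynomial.count_roots]
    have h6 : ¬ m ≤ f.rootMultiplicity r := by
      rw [Polynomial.le_rootMultiplicity_iff hf0]
      exact h1 r
    omega
  have h6 : f.roots.toFinset.card * (m - 1) ≤ (N - 1) * (m - 1) := Nat.mul_le_mul_right _ hcard
  have h7 : (N - 1) * (m - 1) ≤ m * (N - 1) := by
    rw [mul_comm]
    exact Nat.mul_le_mul_right _ (Nat.sub_le _ _)
  omega

/-- A basis with given second vector. -/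
lemma exists_bas {r : Fin 2 → k} (hr : r ≠ 0) : ∃ E : Bas k, E.e1 = r := by
  by_cases h : r 1 = 0
  · have h0 : r 0 ≠ 0 := by
      intro h0
      apply hr
      funext i
      fin_cases i
      · exact h0
      · exact h
    refine ⟨⟨![0, -(r 0)⁻¹], r, ?_⟩, rfl⟩
    simp [h0]
  · refine ⟨⟨![(r 1)⁻¹, 0], r, ?_⟩, rfl⟩
    simp [h]

lemma bas_span (E : Bas k) (r : Fin 2 → k) : ∃ s t : k, ∀ i, r i = s * E.e0 i + t * E.e1 i :=
  ⟨_, _, decomp E r⟩

end binary

section core

variable {k : Type u} [Field k] [IsAlgClosed k] [CharZero k]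

/-- A zero of a binary form. -/
lemma exists_zero {n : ℕ} (hn : 0 < n) {F : MvPolynomial (Fin 2) k} (hF : F.IsHomogeneous n) :
    ∃ x : Fin 2 → k, x ≠ 0 ∧ MvPolynomial.eval x F = 0 := by
  obtain ⟨x, hx, h⟩ := Pool.Agent.Helper71.SE.exists_common_zero (fun _ : Fin 1 => F) (by
    intro _
    have h1 := aeval_smul hF (0 : k) 0
    have e : (fun i => (0 : k) * (0 : Fin 2 → k) i) = 0 := by
      funext i; simp
    rw [e, zero_pow hn.ne', zero_mul] at h1
    exact h1) (by simp)
  exact ⟨x, hx, h 0⟩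

/-- Construction of the data of the core. -/
theorem mk_core (W : Wei k) (hN : 0 < W.N) (E : Bas k) {a b : k}
    (hE : 4 * a ^ 3 + 27 * b ^ 2 ≠ 0) {m e4 e6 : ℕ} (hm0 : 0 < m) (hm : Even m)
    (h4 : a = 0 ∨ m * e4 = 4) (h6 : b = 0 ∨ m * e6 = 6) {f : Polynomial k} (hf0 : f ≠ 0)
    (hf : f.natDegree < m * W.N) (h1 : ∀ r, ¬ (Polynomial.X - Polynomial.C r) ^ m ∣ f)
    (h2 : ¬ f.natDegree ≤ m * (W.N - 1)) (hA1 : MvPolynomial.eval E.e1 W.A = 0)
    (hB1 : MvPolynomial.eval E.e1 W.B = 0)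
    (hA : ∀ (K : Type u) [Field K] [Algebra k K] (T v : K), v ^ m = Polynomial.aeval T f →
      Polynomial.aeval T (deh E W.A) = algebraMap k K a * v ^ 4)
    (hB : ∀ (K : Type u) [Field K] [Algebra k K] (T v : K), v ^ m = Polynomial.aeval T f →
      Polynomial.aeval T (deh E W.B) = algebraMap k K b * v ^ 6) : Nonempty (Core W) :=
  ⟨{ e0 := E.e0
     e1 := E.e1
     span := bas_span E
     a := a
     b := b
     hE := hE
     m := m
     hm0 := hm0.ne'
     hm := hm
     e4 := e4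
     e6 := e6
     h4 := h4
     h6 := h6
     f := f
     hf0 := hf0
     hf := hf
     roots := many_roots hf0 hm0 hN h1 (not_le.mp h2)
     A1 := hA1
     B1 := hB1
     A0 := fun K _ _ T v h => by rw [← aeval_deh, hA K T v h]
     B0 := fun K _ _ T v h => by rw [← aeval_deh, hB K T v h] }⟩

/-- Block RED. -/
theorem exists_core (W : Wei k) (hN : 0 < W.N) (hΔ : 4 * W.A ^ 3 + 27 * W.B ^ 2 ≠ 0)
    (hmin : ∀ l : MvPolynomial (Fin 2) k, l.IsHomogeneous 1 → ¬ (l ^ 4 ∣ W.A ∧ l ^ 6 ∣ W.B))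
    (hj : ∃ c d : k, (c ≠ 0 ∨ d ≠ 0) ∧
      MvPolynomial.C c * W.A ^ 3 = MvPolynomial.C d * W.B ^ 2) : Nonempty (Core W) := by
  by_cases hA0 : W.A = 0
  · -- `A = 0`
    have hB0 : W.B ≠ 0 := by
      intro h
      apply hΔ
      rw [hA0, h]
      ring
    obtain ⟨r, hr, hr'⟩ := exists_zero (by omega : 0 < 6 * W.N) W.hB
    obtain ⟨E, rfl⟩ := exists_bas hr
    refine mk_core W hN E (a := 0) (b := 1) (m := 6) (e4 := 0) (e6 := 1) (f := deh E W.B)
      (by norm_num) (by norm_num) ⟨3, rfl⟩ (Or.inl rfl) (Or.inr rfl) (deh_ne_zero E W.hB hB0)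
      (natDegree_deh_lt E W.hB (by omega) hr') ?_ ?_ ?_ hr' ?_ ?_
    · intro r h
      exact hmin _ (lf_hom E r) ⟨by rw [hA0]; exact dvd_zero _,
        lf_dvd E W.hB (deh_ne_zero E W.hB hB0) h⟩
    · intro h
      exact hmin _ (s_hom E) ⟨by rw [hA0]; exact dvd_zero _,
        s_dvd E W.hB (by omega) (h.trans (by omega))⟩
    · rw [hA0, map_zero]
    · intro K _ _ T v _
      rw [hA0]
      simp [deh]
    · intro K _ _ T v h
      rw [← h, map_one, one_mul]
  by_cases hB0 : W.B = 0
  · obtain ⟨r, hr, hr'⟩ := exists_zero (by omega : 0 < 4 * W.N) W.hA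
    obtain ⟨E, rfl⟩ := exists_bas hr
    refine mk_core W hN E (a := 1) (b := 0) (m := 4) (e4 := 1) (e6 := 0) (f := deh E W.A)
      (by norm_num) (by norm_num) ⟨2, rfl⟩ (Or.inr rfl) (Or.inl rfl) (deh_ne_zero E W.hA hA0)
      (natDegree_deh_lt E W.hA (by omega) hr') ?_ ?_ hr' ?_ ?_ ?_
    · intro r h
      exact hmin _ (lf_hom E r) ⟨lf_dvd E W.hA (deh_ne_zero E W.hA hA0) h,
        by rw [hB0]; exact dvd_zero _⟩
    · intro h
      exact hmin _ (s_hom E) ⟨s_dvd E W.hA (by omega) (h.trans (by omega)),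
        by rw [hB0]; exact dvd_zero _⟩
    · rw [hB0, map_zero]
    · intro K _ _ T v h
      rw [← h, map_one, one_mul]
    · intro K _ _ T v _
      rw [hB0]
      simp [deh]
  -- both nonzero
  obtain ⟨c, d, hcd, hj⟩ := hj
  have hd0 : d ≠ 0 := by
    intro h
    rw [h, MvPolynomial.C_0, zero_mul, mul_eq_zero] at hj
    rcases hj with hj | hj
    · rcases hcd with h1 | h1
      · exact h1 ((MvPolynomial.C_eq_zero).mp hj)
      · exact h1 h
    · exact hA0 (pow_eq_zero_iff (by norm_num) |>.mp hj)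
  have hc0 : c ≠ 0 := by
    intro h
    rw [h, MvPolynomial.C_0, zero_mul, eq_comm, mul_eq_zero] at hj
    rcases hj with hj | hj
    · exact hd0 ((MvPolynomial.C_eq_zero).mp hj)
    · exact hB0 (pow_eq_zero_iff (by norm_num) |>.mp hj)
  set κ : k := d / c with hκ
  have hκ0 : κ ≠ 0 := div_ne_zero hd0 hc0
  have hj' : W.A ^ 3 = MvPolynomial.C κ * W.B ^ 2 := by
    have h1 : MvPolynomial.C c⁻¹ * (MvPolynomial.C c * W.A ^ 3) =
        MvPolynomial.C c⁻¹ * (MvPolynomial.C d * W.B ^ 2) := by rw [hj]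
    rw [← mul_assoc, ← mul_assoc, ← MvPolynomial.C_mul, ← MvPolynomial.C_mul,
      inv_mul_cancel₀ hc0, MvPolynomial.C_1, one_mul] at h1
    rw [h1, hκ, div_eq_inv_mul]
  have hκE : 4 * κ ^ 3 + 27 * κ ^ 2 ≠ 0 := by
    intro h
    have h1 : 4 * κ + 27 = 0 := by
      have : κ ^ 2 * (4 * κ + 27) = 0 := by linear_combination h
      exact (mul_eq_zero.mp this).resolve_left (pow_ne_zero _ hκ0)
    apply hΔ
    rw [hj']
    have h2 : (MvPolynomial.C (4 * κ + 27) : MvPolynomial (Fin 2) k) = 0 := by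
      rw [h1, MvPolynomial.C_0]
    rw [MvPolynomial.C_add, MvPolynomial.C_mul] at h2
    have e4 : (MvPolynomial.C (4 : k) : MvPolynomial (Fin 2) k) = 4 := map_ofNat _ 4
    have e27 : (MvPolynomial.C (27 : k) : MvPolynomial (Fin 2) k) = 27 := map_ofNat _ 27
    rw [e4, e27] at h2
    linear_combination W.B ^ 2 * h2
  obtain ⟨r, hr, hr'⟩ := exists_zero (by omega : 0 < 4 * W.N) W.hA
  obtain ⟨E, rfl⟩ := exists_bas hr
  have hBr : MvPolynomial.eval E.e1 W.B = 0 := by
    have h1 := congrArg (MvPolynomial.eval E.e1) hj'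
    rw [map_pow, hr', zero_pow (by norm_num), map_mul, map_pow, MvPolynomial.eval_C, eq_comm,
      mul_eq_zero] at h1
    rcases h1 with h1 | h1
    · exact absurd h1 hκ0
    · exact pow_eq_zero_iff (by norm_num) |>.mp h1
  have hA1 := deh_ne_zero E W.hA hA0
  have hB1 := deh_ne_zero E W.hB hB0
  -- the relation for the dehomogenised forms
  have hrel : deh E W.A ^ 3 = Polynomial.C κ * deh E W.B ^ 2 := by
    have h1 := congrArg (deh E) hj'
    unfold deh at h1 ⊢
    rw [map_pow, map_mul, map_pow, MvPolynomial.algHom_C] at h1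
    exact h1
  obtain ⟨g, hg⟩ : deh E W.A ∣ deh E W.B := by
    have h1 : deh E W.A ^ 2 ∣ deh E W.B ^ 2 := by
      refine ⟨Polynomial.C κ⁻¹ * deh E W.A, ?_⟩
      have h2 : deh E W.A ^ 2 * (Polynomial.C κ⁻¹ * deh E W.A) =
          Polynomial.C κ⁻¹ * deh E W.A ^ 3 := by ring
      rw [h2, hrel, ← mul_assoc, ← Polynomial.C_mul, inv_mul_cancel₀ hκ0, Polynomial.C_1, one_mul]
    exact (IsIntegrallyClosed.pow_dvd_pow_iff two_ne_zero).mp h1
  have hg0 : g ≠ 0 := by
    rintro rfl
    rw [mul_zero] at hg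
    exact hB1 hg
  have hAg : deh E W.A = Polynomial.C κ * g ^ 2 := by
    have h1 : deh E W.A ^ 2 * deh E W.A = deh E W.A ^ 2 * (Polynomial.C κ * g ^ 2) := by
      have h2 : deh E W.A ^ 2 * deh E W.A = deh E W.A ^ 3 := by ring
      rw [h2, hrel, hg]
      ring
    exact mul_left_cancel₀ (pow_ne_zero _ hA1) h1
  have hBg : deh E W.B = Polynomial.C κ * g ^ 3 := by
    rw [hg, hAg]; ring
  have dA : (deh E W.A).natDegree = 2 * g.natDegree := by
    rw [hAg, Polynomial.natDegree_C_mul hκ0, Polynomial.natDegree_pow]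
  have dB : (deh E W.B).natDegree = 3 * g.natDegree := by
    rw [hBg, Polynomial.natDegree_C_mul hκ0, Polynomial.natDegree_pow]
  refine mk_core W hN E (a := κ) (b := κ) (m := 2) (e4 := 2) (e6 := 3) (f := g)
    hκE (by norm_num) ⟨1, rfl⟩ (Or.inr rfl) (Or.inr rfl) hg0 ?_ ?_ ?_ hr' hBr ?_ ?_
  · have h1 := natDegree_deh_lt E W.hA (by omega) hr'
    rw [dA] at h1
    omega
  · intro r h
    refine hmin _ (lf_hom E r) ⟨lf_dvd E W.hA hA1 ?_, lf_dvd E W.hB hB1 ?_⟩
    · rw [hAg]
      apply Dvd.dvd.mul_left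
      have := pow_dvd_pow_of_dvd h 2
      rwa [← pow_mul] at this
    · rw [hBg]
      apply Dvd.dvd.mul_left
      have := pow_dvd_pow_of_dvd h 3
      rwa [← pow_mul] at this
  · intro h
    refine hmin _ (s_hom E) ⟨s_dvd E W.hA (by omega) ?_, s_dvd E W.hB (by omega) ?_⟩
    · rw [dA]; omega
    · rw [dB]; omega
  · intro K _ _ T v h
    rw [hAg, map_mul, map_pow, Polynomial.aeval_C, ← h]
    ring
  · intro K _ _ T v h
    rw [hBg, map_mul, map_pow, Polynomial.aeval_C, ← h]
    ring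

end core

end Pool.Agent.Helper83.EW
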